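import Pool.Agent.Lib.MP_0c15f2_nt.DS.Fin

/-! Function-field model: the Schanuel property of a Drinfeld module of rank two. -/

namespace Pool.Agent.Results.MP_0c15f2_nt.DrinfeldSchanuel

/-- The coefficients `a_i` of the exponential of the Drinfeld module `T + g τ + Δ τ ^ 2`, where
`τ` is the `q`-th power map. -/
noncomputable def expCoeff {Ω : Type} [NormedField Ω] (q : ℕ) (T g Δ : Ω) : ℕ → Ω
  | 0 => 1
  | 1 => g / (T ^ q - T)
  | i + 2 => (g * expCoeff q T g Δ (i + 1) ^ q + Δ * expCoeff q T g Δ i ^ q ^ 2) /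
      (T ^ q ^ (i + 2) - T)

/-- The exponential `exp z = ∑ a_i z ^ q ^ i`. -/
noncomputable def drinExp {Ω : Type} [NormedField Ω] (q : ℕ) (T g Δ z : Ω) : Ω :=
  ∑' i : ℕ, expCoeff q T g Δ i * z ^ q ^ i

/-- The quasi-periodic function `∑ a_i ^ q z ^ q ^ (i+1) / (T ^ q ^ (i+1) - T)`. -/
noncomputable def quasi {Ω : Type} [NormedField Ω] (q : ℕ) (T g Δ z : Ω) : Ω :=
  ∑' i : ℕ, expCoeff q T g Δ i ^ q * z ^ q ^ (i + 1) / (T ^ q ^ (i + 1) - T)

/-- The additive map `x ↦ ∑ P_i x ^ q ^ i`. -/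
noncomputable def addMap {Ω : Type} [NormedField Ω] (q : ℕ) (P : Polynomial Ω) (x : Ω) : Ω :=
  P.sum fun i a => a * x ^ q ^ i

/-- `c` is the coefficient of `x` in an additive polynomial that commutes with
`x ↦ T x + g x ^ q + Δ x ^ q ^ 2`, that is, in an endomorphism of the Drinfeld module. -/
def IsEnd {Ω : Type} [NormedField Ω] (q : ℕ) (T g Δ c : Ω) : Prop :=
  ∃ P : Polynomial Ω, P.coeff 0 = c ∧ ∀ x, addMap q P (T * x + g * x ^ q + Δ * x ^ q ^ 2) =
    T * addMap q P x + g * addMap q P x ^ q + Δ * addMap q P x ^ q ^ 2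

/-- The rational function field `K = F(T)`. -/
def K (F : Type) {Ω : Type} [Field F] [NormedField Ω] [Algebra F Ω] (T : Ω) : Subfield Ω :=
  (IntermediateField.adjoin F {T}).toSubfield

theorem expCoeff_eq {Ω : Type} [NormedField Ω] (q : ℕ) (T g Δ : Ω) (i : ℕ) :
    expCoeff q T g Δ i = (⟨q, T, g, Δ⟩ : Pool.Agent.CSU.SA.DS.DM Ω).al i ∧
      expCoeff q T g Δ (i + 1) = (⟨q, T, g, Δ⟩ : Pool.Agent.CSU.SA.DS.DM Ω).al (i + 1) := by
  induction i with
  | zero => exact ⟨rfl, rfl⟩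
  | succ i ih =>
    refine ⟨ih.2, ?_⟩
    rw [expCoeff, ih.1, ih.2]
    rfl

theorem result (F Ω : Type) [Field F] [Fintype F] [NormedField Ω] [IsUltrametricDist Ω]
    [CompleteSpace Ω] [IsAlgClosed Ω] [Algebra F Ω] (T g Δ : Ω) (hT : 1 < ‖T‖)
    (hg : IsAlgebraic (K F T) g) (hΔ : IsAlgebraic (K F T) Δ) (hΔ0 : Δ ≠ 0) (n : ℕ)
    (u : Fin n → Ω) (hi : ∀ c : Fin n → Ω, (∀ i, IsEnd (Fintype.card F) T g Δ (c i)) →
      ∑ i, c i * u i = 0 → c = 0) :
    ((2 * n : ℕ) : Cardinal) ≤ Algebra.trdeg (K F T) (IntermediateField.adjoin (K F T)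
      (Set.range u ∪ (Set.range fun i => drinExp (Fintype.card F) T g Δ (u i)) ∪
        Set.range fun i => quasi (Fintype.card F) T g Δ (u i))) := by
  obtain ⟨s, hs, h⟩ :=
    Pool.Agent.CSU.SA.DS.fullS F Ω ⟨Fintype.card F, T, g, Δ⟩ n u rfl hT hΔ0 hg hΔ hi
  have e : expCoeff (Fintype.card F) T g Δ = _ :=
    funext fun i => (expCoeff_eq (Fintype.card F) T g Δ i).1
  unfold drinExp quasi
  rw [e]
  have h1 : AlgebraicIndependent (K F T) fun j => (⟨s j, IntermediateField.subset_adjoin _ _ (hs j)⟩ :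
      IntermediateField.adjoin (K F T) _) :=
    AlgebraicIndependent.of_comp (IntermediateField.val _) h
  have h2 := h1.cardinalMk_le_trdeg
  rw [Cardinal.mk_fintype, Fintype.card_fin] at h2
  exact h2

end Pool.Agent.Results.MP_0c15f2_nt.DrinfeldSchanuel
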