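import Pool.Agent.Lib.MP_0c15f2_nt.DF.Top

/-! Function-field model of the question: the quasi-periodic function of a Drinfeld module of
rank two at algebraic multiples of a point. -/

namespace Pool.Agent.Results.MP_0c15f2_nt.DrinfeldZeta

/-- The coefficients `a_i` of the exponential of the Drinfeld module `θ + g τ + Δ τ ^ 2`, where
`τ` is the `q`-th power map. -/
noncomputable def expCoeff {F : Type} [Field F] (q : ℕ) (θ g Δ : LaurentSeries F) :
    ℕ → LaurentSeries F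
  | 0 => 1
  | 1 => g / (θ ^ q - θ)
  | i + 2 => (g * expCoeff q θ g Δ (i + 1) ^ q + Δ * expCoeff q θ g Δ i ^ q ^ 2) /
      (θ ^ q ^ (i + 2) - θ)

/-- The exponential `exp z = ∑ a_i z ^ q ^ i`. -/
noncomputable def drinExp {F : Type} [Field F] (q : ℕ) (θ g Δ z : LaurentSeries F) :
    LaurentSeries F :=
  ∑' i : ℕ, expCoeff q θ g Δ i * z ^ q ^ i

/-- The quasi-periodic function `∑ a_i ^ q z ^ q ^ (i+1) / (θ ^ q ^ (i+1) - θ)`. -/
noncomputable def quasi {F : Type} [Field F] (q : ℕ) (θ g Δ z : LaurentSeries F) :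
    LaurentSeries F :=
  ∑' i : ℕ, expCoeff q θ g Δ i ^ q / (θ ^ q ^ (i + 1) - θ) * z ^ q ^ (i + 1)

theorem expCoeff_eq {F : Type} [Field F] {q : ℕ} (hq : q ≠ 0) (θ g Δ : LaurentSeries F) (i : ℕ) :
    expCoeff q θ g Δ i = (Drin.vv q θ g Δ i).1 ∧
      expCoeff q θ g Δ (i + 1) = (Drin.vv q θ g Δ (i + 1)).1 := by
  induction i with
  | zero => simp [expCoeff, Drin.vv, hq]
  | succ i ih =>
    refine ⟨ih.2, ?_⟩
    rw [expCoeff, ih.1, ih.2, Drin.vv, sq, pow_mul]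
    rfl

theorem result (F : Type) [Field F] [IsAlgClosed F] (p ν : ℕ) [Fact p.Prime] [CharP F p]
    (hq : 3 ≤ p ^ ν) (θ g Δ α z : LaurentSeries F) (hθ : θ.order < 0)
    (hg : IsSeparable (IntermediateField.adjoin F ({θ} : Set (LaurentSeries F))) g)
    (hΔ : IsSeparable (IntermediateField.adjoin F ({θ} : Set (LaurentSeries F))) Δ)
    (hα : IsSeparable (IntermediateField.adjoin F ({θ} : Set (LaurentSeries F))) α)
    (hΔ0 : Δ ≠ 0) (hα1 : α ^ p ^ ν ≠ α) (hα2 : g = 0 → α ^ (p ^ ν) ^ 2 ≠ α) (hz : z ≠ 0)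
    (hξ : IsAlgebraic (IntermediateField.adjoin F ({θ} : Set (LaurentSeries F)))
      (quasi (p ^ ν) θ g Δ z)) :
    drinExp (p ^ ν) θ g Δ (α * z) ≠ 0 ∧
      Transcendental (IntermediateField.adjoin F ({θ} : Set (LaurentSeries F)))
        (quasi (p ^ ν) θ g Δ (α * z)) := by
  have h0 : p ^ ν ≠ 0 := by omega
  simp only [quasi, drinExp, (expCoeff_eq h0 θ g Δ _).1, pow_succ' (p ^ ν), pow_mul] at hξ ⊢
  have := Drin.top F p ν hq θ g Δ α z hθ hg hΔ hα hΔ0 hα1 hα2 hz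
  simp only [Drin.be, pow_succ' (p ^ ν), pow_mul] at this
  exact this hξ

end Pool.Agent.Results.MP_0c15f2_nt.DrinfeldZeta
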