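import Pool.Agent.Lib.MP_0c15f2_nt.Schneider

open Pool.Agent.Lib.MP_0c15f2_nt

namespace Pool.Agent.Results.MP_0c15f2_nt.FiniteExceptions

theorem result (r : ℕ) : ∃ M : ℕ, ∀ L : PeriodPair, IsAlgebraic ℚ L.g₂ → IsAlgebraic ℚ L.g₃ →
    ∀ p : ℂ, p ≠ 0 → ∀ V : Submodule ℚ ℂ, FiniteDimensional ℚ V → Module.finrank ℚ V ≤ r →
      {α : ℂ | α ∈ V ∧ α * p ∉ L.lattice ∧ IsAlgebraic ℚ (wzeta L (α * p))}.Finite ∧
      {α : ℂ | α ∈ V ∧ α * p ∉ L.lattice ∧ IsAlgebraic ℚ (wzeta L (α * p))}.ncard ≤ M := by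
  obtain ⟨M, hM⟩ := main r
  refine ⟨M, fun L h2 h3 p hp V hV hr => ?_⟩
  obtain ⟨h4, h5⟩ := hM L h2 h3 (V.map (LinearMap.mulRight ℚ p)) inferInstance
    ((Submodule.finrank_map_le _ _).trans hr)
  have hm : ∀ α ∈ {α : ℂ | α ∈ V ∧ α * p ∉ L.lattice ∧ IsAlgebraic ℚ (wzeta L (α * p))},
      α * p ∈ Exc L (V.map (LinearMap.mulRight ℚ p)) := fun α h => ⟨⟨α, h.1, rfl⟩, h.2⟩
  have hi : Set.InjOn (fun α => α * p)
      {α : ℂ | α ∈ V ∧ α * p ∉ L.lattice ∧ IsAlgebraic ℚ (wzeta L (α * p))} :=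
    fun a _ b _ h => mul_right_cancel₀ hp h
  exact ⟨Set.Finite.of_injOn hm hi h4, (Set.ncard_le_ncard_of_injOn _ hm hi h4).trans h5⟩

end Pool.Agent.Results.MP_0c15f2_nt.FiniteExceptions
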